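import Pool.Agent.Lib_H23Rec.Main

set_option autoImplicit false

/-!
# MP_548f00_an, Q1: all six recurrences converge to period-two solutions

A third-order equation `x_{n+1} = num (x_n, x_{n-1}, x_{n-2}) / den (x_n, x_{n-1}, x_{n-2})`,
`n = 0, 1, 2, …`, is given by its numerator and denominator, both as functions of
`a = x_n`, `b = x_{n-1}`, `c = x_{n-2}`.  Sequences are indexed from `0`: the term `x n` below is
`x_{n-2}` of the problem, so that `x 0, x 1, x 2` are the initial values.
-/

namespace Pool.Agent.Results.MP_548f00_an.PeriodTwo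

open Filter Topology

/-- `x` is a solution of `x_{n+1} = num (x_n) (x_{n-1}) (x_{n-2}) / den (x_n) (x_{n-1}) (x_{n-2})`:
nonnegative initial values, every denominator positive, and the recurrence holds. -/
def IsSolution (num den : ℝ → ℝ → ℝ → ℝ) (x : ℕ → ℝ) : Prop :=
  (0 ≤ x 0 ∧ 0 ≤ x 1 ∧ 0 ≤ x 2) ∧
    ∀ n, 0 < den (x (n + 2)) (x (n + 1)) (x n) ∧
      x (n + 3) = num (x (n + 2)) (x (n + 1)) (x n) / den (x (n + 2)) (x (n + 1)) (x n)

/-- Every solution converges to a (not necessarily prime) period-two solution of the same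
equation. -/
def PeriodTwoConvergence (num den : ℝ → ℝ → ℝ → ℝ) : Prop :=
  ∀ x, IsSolution num den x →
    ∃ y, IsSolution num den y ∧ (∀ n, y (n + 2) = y n) ∧
      Tendsto (fun n => x n - y n) atTop (𝓝 0)

/-- **Q1, affirmative answer.**  For each of (E1)-(E6) and all positive parameters, every solution
converges to a period-two solution. -/
theorem result :
    -- (E1)
    (∀ D : ℝ, 0 < D →
      PeriodTwoConvergence (fun _ b _ => b) (fun _ b c => b + D * c)) ∧
    -- (E2)
    (∀ α D : ℝ, 0 < α → 0 < D →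
      PeriodTwoConvergence (fun _ b _ => α + b) (fun _ b c => b + D * c)) ∧
    -- (E3)
    (∀ A D : ℝ, 0 < A → 0 < D →
      PeriodTwoConvergence (fun _ b _ => b) (fun _ b c => A + b + D * c)) ∧
    -- (E4)
    (∀ B D : ℝ, 0 < B → 0 < D →
      PeriodTwoConvergence (fun _ b _ => b) (fun a b c => B * a + b + D * c)) ∧
    -- (E5)
    (∀ α A D : ℝ, 0 < α → 0 < A → 0 < D →
      PeriodTwoConvergence (fun _ b _ => α + b) (fun _ b c => A + b + D * c)) ∧
    -- (E6)
    (∀ α B D : ℝ, 0 < α → 0 < B → 0 < D →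
      PeriodTwoConvergence (fun _ b _ => α + b) (fun a b c => B * a + b + D * c)) := by
  have gen : ∀ α A B D : ℝ, 0 ≤ α → 0 ≤ A → 0 ≤ B → 0 < D →
      PeriodTwoConvergence (fun _ b _ => α + b) (fun a b c => A + B * a + b + D * c) := by
    intro α A B D hα hA hB hD x hx
    obtain ⟨⟨h0, h1, h2⟩, hr⟩ := hx
    obtain ⟨y, hy0, hy, hper, hlim⟩ := H23Rec.main' hα hA hB hD h0 h1 h2 hr
    exact ⟨y, ⟨hy0, hy⟩, hper, hlim⟩
  refine ⟨fun D hD => ?_, fun α D hα hD => ?_, fun A D hA hD => ?_, fun B D hB hD => ?_,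
    fun α A D hα hA hD => ?_, fun α B D hα hB hD => ?_⟩
  · have h := gen 0 0 0 D le_rfl le_rfl le_rfl hD
    simpa only [zero_mul, zero_add] using h
  · have h := gen α 0 0 D hα.le le_rfl le_rfl hD
    simpa only [zero_mul, zero_add] using h
  · have h := gen 0 A 0 D le_rfl hA.le le_rfl hD
    simpa only [zero_mul, zero_add, add_zero] using h
  · have h := gen 0 0 B D le_rfl le_rfl hB.le hD
    simpa only [zero_add] using h
  · have h := gen α A 0 D hα.le hA.le le_rfl hD
    simpa only [zero_mul, add_zero] using h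
  · have h := gen α 0 B D hα.le le_rfl hB.le hD
    simpa only [zero_add] using h

end Pool.Agent.Results.MP_548f00_an.PeriodTwo
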